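import Pool.Agent.L7h78.PG.Ga0

/-!
# Project PG: part GA1
-/

set_option autoImplicit false
set_option linter.unusedSimpArgs false

namespace Pool.Agent.L7h78.PG

open CategoryTheory Opposite Limits MonoidalCategory
open Pool.Agent.L7h34.PG

/-- a product is never `z` -/
theorem ml_ne_z {S : Type} (σ : Equiv.Perm S) {m : SimplexCategoryᵒᵖ} (a b : El (Bg m) S) :
    ml σ a b ≠ .z := by
  classical
  rcases a with _ | _ | ⟨(_ | _ | _), s⟩ <;> rcases b with _ | _ | ⟨(_ | _ | _), s'⟩ <;>
    simp only [ml_zero_l, ml_zero_r, ml_z_r, ml_y_r, ml_z_u, ml_z_m, ml_ix_u, ml_u_m, ml_y_m,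
      ml_m_m] <;> (try split) <;> (try split_ifs) <;> simp

/-- the identity of the conjugation -/
theorem pg_pg (k k' k'' : Kd) (e e' : ZMod 2) (h : kc k k' = some k'') (g : G) :
    pg k'' (e + e') g =
      tp (if sh k' then e else 0) * pg k' e' (pg k e g) * tp (if sh k' then e else 0) := by
  obtain ⟨x, y, s⟩ := g
  have h2 : e = 0 ∨ e = 1 := by revert e; decide
  have h3 : e' = 0 ∨ e' = 1 := by revert e'; decide
  have h4 : (1 : ZMod 2) + 1 = 0 := by decide
  cases k <;> cases k' <;> simp only [kc, Option.some.injEq, reduceCtorEq] at h <;> subst h <;>
    rcases h2 with rfl | rfl <;> rcases h3 with rfl | rfl <;> cases s <;>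
    simp [pg, pa, pb, sh, tp, tau, mul_def, one_def, sg, h4]

theorem P_P {m : SimplexCategoryᵒᵖ} (k k' k'' : Kd) (e e' : ZMod 2) (h : kc k k' = some k'')
    (c : Bg m) :
    Bg.P m k'' (e + e') c =
      Bg.cj (fun _ => if sh k' then e else 0) (Bg.P m k' e' (Bg.P m k e c)) := by
  apply Subtype.ext
  funext i j
  exact pg_pg k k' k'' e e' h (c.1 i j)

/-- the table of composition -/
theorem kc_spec (k k' k'' : Kd) (h : kc k k' = some k'') :
    src k'' = src k ∧ tgt k'' = tgt k' ∧ src k' = tgt k ∧ sh k'' = (sh k || sh k') ∧
      (sh k = false ∨ sh k' = false) := by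
  cases k <;> cases k' <;> simp only [kc, Option.some.injEq, reduceCtorEq] at h <;> subst h <;>
    simp [src, tgt, sh]

theorem kc_none (k k' : Kd) (h : kc k k' = none) : src k' ≠ tgt k := by
  cases k <;> cases k' <;> simp [kc] at h <;> simp [src, tgt]

theorem sft_sft {S : Type} (σ : Equiv.Perm S) (k k' k'' : Kd) (h : kc k k' = some k'') (s : S) :
    sft σ (sh k'') s = sft σ (sh k') (sft σ (sh k) s) := by
  obtain ⟨-, -, -, h1, h2⟩ := kc_spec k k' k'' h
  rw [h1]
  rcases h2 with h2 | h2 <;> simp [h2, sft]

theorem kc_assoc (k k' k'' : Kd) :
    ((kc k k').bind fun x => kc x k'') = (kc k' k'').bind fun x => kc k x := by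
  cases k <;> cases k' <;> cases k'' <;> rfl

theorem s_GA1 : S_GA1 := by
  classical
  intro S σ ε _ m a b c
  rcases c with _ | _ | ⟨(lc | ⟨lc, qc⟩ | ⟨k', e'⟩), s''⟩
  · simp only [ml_zero_r, gy]
  · simp only [ml_z_r, ml_zero_r, gy]
  · have h1 : ml σ a (ml σ b (.ix (.u lc) s'')) = .zero := by
      rcases b with _ | _ | ⟨b, s'⟩
      · rw [ml_zero_l, ml_zero_r]
      · rw [ml_z_u, ml_y_r]
      · rw [ml_ix_u, ml_zero_r]
    have h2 : ml σ (ml σ a b) (.ix (.u lc) s'') = .zero := by
      have hz := ml_ne_z σ a b
      generalize ml σ a b = w at hz
      rcases w with _ | _ | ⟨w, s⟩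
      · rw [ml_zero_l]
      · exact absurd rfl hz
      · rw [ml_ix_u]
    rw [h1, h2]
    rfl
  · simp only [ml_y_r, ml_zero_r, gy]
  · rcases b with _ | _ | ⟨(lb | ⟨lb, qb⟩ | ⟨k, e⟩), s'⟩
    · simp only [ml_zero_l, ml_zero_r, gy]
    · simp only [ml_z_m, ml_z_r, ml_zero_l, ml_zero_r, gy]
    · rw [ml_u_m]
      rcases a with _ | _ | ⟨a, s⟩
      · simp only [ml_zero_l, gy]
      · rw [ml_z_u, ml_y_m]
        split_ifs
        · rw [ml_z_u, P_one]
          change _ = El.ix (Sh.y _ (Bg.cj (fun _ => _) (Bg.one m))) _
          rw [cj_one]
        · rw [ml_zero_r]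
          rfl
        · rw [ml_zero_r]
          rfl
      · rw [ml_ix_u, ml_zero_l]
        split_ifs
        · rw [ml_ix_u]
          rfl
        · rw [ml_zero_r]
          rfl
        · rw [ml_zero_r]
          rfl
    · rw [ml_y_m, ml_y_r, ml_zero_l]
      split_ifs
      · rw [ml_y_r]
        rfl
      · rw [ml_zero_r]
        rfl
      · rw [ml_zero_r]
        rfl
    · rw [ml_m_m]
      cases h1 : kc k k' with
      | none =>
        have h2 := kc_none k k' h1
        simp only [ml_zero_r]
        rcases a with _ | _ | ⟨(la | ⟨la, qa⟩ | ⟨k0, e0⟩), s⟩
        · simp only [ml_zero_l, gy]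
        · simp only [ml_z_m, ml_zero_l, gy]
        · rw [ml_u_m]
          split_ifs
          · rw [ml_u_m, if_neg h2]
            rfl
          · rw [ml_zero_l]
            rfl
          · rw [ml_zero_l]
            rfl
        · rw [ml_y_m]
          split_ifs
          · rw [ml_y_m, if_neg h2]
            rfl
          · rw [ml_zero_l]
            rfl
          · rw [ml_zero_l]
            rfl
        · have h3 := kc_assoc k0 k k'
          rw [h1, Option.bind_none] at h3
          rw [ml_m_m]
          cases h4 : kc k0 k with
          | none =>
            simp only [ml_zero_l, gy]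
          | some k1 =>
            rw [h4, Option.bind_some] at h3
            simp only
            split_ifs
            · rw [ml_m_m, h3]
              rfl
            · rw [ml_zero_l]
              rfl
      | some k'' =>
        obtain ⟨h2, h3, h4, h5, h6⟩ := kc_spec k k' k'' h1
        simp only
        rcases a with _ | _ | ⟨(la | ⟨la, qa⟩ | ⟨k0, e0⟩), s⟩
        · simp only [ml_zero_l, gy]
        · simp only [ml_z_m, ml_zero_l, gy]
          split_ifs
          · rw [ml_z_m]
          · rw [ml_zero_r]
        · rw [ml_u_m]
          by_cases h7 : src k = la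
          · by_cases h8 : s' = s
            · subst h8
              rw [if_pos h7, if_pos rfl, ml_u_m, if_pos h4]
              by_cases h9 : s'' = sft σ (sh k) s'
              · rw [if_pos h9, if_pos h9, ml_u_m, h2, if_pos h7, if_pos rfl, h3,
                  sft_sft σ k k' k'' h1]
                rfl
              · rw [if_neg h9, if_neg h9, ml_zero_r]
                rfl
            · rw [if_pos h7, if_neg h8, ml_zero_l]
              split_ifs
              · rw [ml_u_m, if_neg h8, ite_self]
                rfl
              · rw [ml_zero_r]
                rfl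
          · rw [if_neg h7, ml_zero_l]
            split_ifs
            · rw [ml_u_m, h2, if_neg h7]
              rfl
            · rw [ml_zero_r]
              rfl
        · rw [ml_y_m]
          by_cases h7 : src k = la
          · by_cases h8 : s' = s
            · subst h8
              rw [if_pos h7, if_pos rfl, ml_y_m, if_pos h4]
              by_cases h9 : s'' = sft σ (sh k) s'
              · rw [if_pos h9, if_pos h9, ml_y_m, h2, if_pos h7, if_pos rfl, h3,
                  sft_sft σ k k' k'' h1, P_P k k' k'' e e' h1]
                rfl
              · rw [if_neg h9, if_neg h9, ml_zero_r]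
                rfl
            · rw [if_pos h7, if_neg h8, ml_zero_l]
              split_ifs
              · rw [ml_y_m, if_neg h8, ite_self]
                rfl
              · rw [ml_zero_r]
                rfl
          · rw [if_neg h7, ml_zero_l]
            split_ifs
            · rw [ml_y_m, h2, if_neg h7]
              rfl
            · rw [ml_zero_r]
              rfl
        · have h10 := kc_assoc k0 k k'
          rw [h1, Option.bind_some] at h10
          rw [ml_m_m]
          cases h11 : kc k0 k with
          | none =>
            rw [h11, Option.bind_none] at h10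
            simp only [ml_zero_l]
            split_ifs
            · rw [ml_m_m, ← h10]
              rfl
            · rw [ml_zero_r]
              rfl
          | some k1 =>
            rw [h11, Option.bind_some] at h10
            obtain ⟨h12, h13, h14, h15, h16⟩ := kc_spec k0 k k1 h11
            simp only
            by_cases h8 : s' = sft σ (sh k0) s
            · subst h8
              rw [if_pos rfl, ml_m_m, h10]
              by_cases h9 : s'' = sft σ (sh k) (sft σ (sh k0) s)
              · rw [if_pos h9, ml_m_m]
                cases h17 : kc k0 k'' with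
                | none => rfl
                | some k2 =>
                  simp only
                  rw [if_pos trivial, if_pos (by rw [h9, sft_sft σ k0 k k1 h11]), add_assoc]
                  rfl
              · rw [if_neg h9, ml_zero_r]
                cases h17 : kc k0 k'' with
                | none => rfl
                | some k2 =>
                  simp only
                  rw [if_neg (by rw [sft_sft σ k0 k k1 h11]; exact h9)]
                  rfl
            · rw [if_neg h8, ml_zero_l]
              split_ifs
              · rw [ml_m_m]
                cases kc k0 k'' with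
                | none => rfl
                | some k2 =>
                  simp only
                  rw [if_neg h8]
                  rfl
              · rw [ml_zero_r]
                rfl

end Pool.Agent.L7h78.PG
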