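import Pool.Agent.L7h78.PG.Ga1

/-!
# Project PG: part GA2
-/

set_option autoImplicit false

namespace Pool.Agent.L7h78.PG

open CategoryTheory Opposite Limits MonoidalCategory
open Pool.Agent.L7h34.PG

/-- a product of the form `y` -/
theorem ml_eq_y {S : Type} (σ : Equiv.Perm S) {m : SimplexCategoryᵒᵖ} (a b : El (Bg m) S)
    (l : Bool) (q : Bg m) (s : S) (h : ml σ a b = .ix (.y l q) s) :
    (∃ (l' : Bool) (s' : S), a = .z ∧ b = .ix (.u l') s' ∧ l = l' ∧ s = s') ∨
    (∃ (l' : Bool) (q' : Bg m) (s' : S) (k : Kd) (e : ZMod 2), a = .ix (.y l' q') s' ∧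
      b = .ix (.m k e) s' ∧ src k = l' ∧ l = tgt k ∧ s = sft σ (sh k) s') := by
  classical
  rcases a with _ | _ | ⟨(la | ⟨la, qa⟩ | ⟨ka, ea⟩), sa⟩
  · rw [ml_zero_l] at h
    cases h
  · rcases b with _ | _ | ⟨(lb | ⟨lb, qb⟩ | ⟨kb, eb⟩), sb⟩
    · rw [ml_zero_r] at h
      cases h
    · rw [ml_z_r] at h
      cases h
    · rw [ml_z_u] at h
      cases h
      exact Or.inl ⟨_, _, rfl, rfl, rfl, rfl⟩
    · rw [ml_y_r] at h
      cases h
    · rw [ml_z_m] at h
      cases h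
  · rcases b with _ | _ | ⟨(lb | ⟨lb, qb⟩ | ⟨kb, eb⟩), sb⟩
    · rw [ml_zero_r] at h
      cases h
    · rw [ml_z_r] at h
      cases h
    · rw [ml_ix_u] at h
      cases h
    · rw [ml_y_r] at h
      cases h
    · rw [ml_u_m] at h
      split_ifs at h
      cases h
  · rcases b with _ | _ | ⟨(lb | ⟨lb, qb⟩ | ⟨kb, eb⟩), sb⟩
    · rw [ml_zero_r] at h
      cases h
    · rw [ml_z_r] at h
      cases h
    · rw [ml_ix_u] at h
      cases h
    · rw [ml_y_r] at h
      cases h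
    · rw [ml_y_m] at h
      split_ifs at h with h1 h2
      subst h2
      cases h
      exact Or.inr ⟨_, _, _, _, _, rfl, rfl, h1, rfl, rfl⟩
  · rcases b with _ | _ | ⟨(lb | ⟨lb, qb⟩ | ⟨kb, eb⟩), sb⟩
    · rw [ml_zero_r] at h
      cases h
    · rw [ml_z_r] at h
      cases h
    · rw [ml_ix_u] at h
      cases h
    · rw [ml_y_r] at h
      cases h
    · rw [ml_m_m] at h
      cases h1 : kc ka kb with
      | none =>
        rw [h1] at h
        cases h
      | some k'' =>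
        rw [h1] at h
        simp only at h
        split_ifs at h
        cases h

theorem kc_some (k k' : Kd) (h : src k' = tgt k) : ∃ k'', kc k k' = some k'' := by
  cases k <;> cases k' <;> simp only [src, tgt, reduceCtorEq] at h <;> exact ⟨_, rfl⟩

/-- the product of composable morphisms -/
theorem ml_mm {S : Type} (σ : Equiv.Perm S) {m : SimplexCategoryᵒᵖ} (k k' k'' : Kd)
    (e e' : ZMod 2) (s : S) (h : kc k k' = some k'') :
    ml σ (.ix (.m k e) s : El (Bg m) S) (.ix (.m k' e') (sft σ (sh k) s)) =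
      .ix (.m k'' (e + e')) s := by
  classical
  rw [ml_m_m, h]
  simp only [if_true]

theorem s_GA2 : S_GA2 := by
  classical
  intro S σ ε hε m a b c d l q s h
  rcases ml_eq_y σ _ _ l q s h with ⟨l1, s1, h1, -⟩ | ⟨l1, q1, s1, k1, e1, h1, h2, h3, -, -⟩
  · exact absurd h1 (ml_ne_z σ _ _)
  subst h2
  rcases ml_eq_y σ _ _ l1 q1 s1 h1 with ⟨l2, s2, h4, -⟩ | ⟨l2, q2, s2, k2, e2, h4, h5, h6, h7, h8⟩
  · exact absurd h4 (ml_ne_z σ _ _)
  subst h5
  subst h8
  rw [h7] at h3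
  obtain ⟨k3, h9⟩ := kc_some k2 k1 h3
  rw [ml_mm σ k2 k1 k3 e2 e1 s2 h9]
  rcases ml_eq_y σ _ _ l2 q2 s2 h4 with ⟨l0, s0, rfl, rfl, rfl, rfl⟩ |
    ⟨l0, q0, s0, k0, e0, rfl, rfl, h10, h11, rfl⟩
  · -- the case (z, u, m, m)
    rw [ml_z_u, ml_u_m, if_pos h6, if_pos rfl]
    change (e2 + e1) * ε (sft σ (sh k3) s2) + (if sh k1 then e2 else 0) =
      e1 * ε (sft σ (sh k1) (sft σ (sh k2) s2)) + e2 * ε (sft σ (sh k2) s2)
    rw [sft_sft σ k2 k1 k3 h9]
    generalize sft σ (sh k2) s2 = t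
    cases sh k1 with
    | false =>
      simp only [sft, Bool.false_eq_true, if_false]
      ring
    | true =>
      simp only [sft, if_true, hε]
      have h12 : (2 : ZMod 2) = 0 := by decide
      linear_combination e2 * h12
  · -- the case (y, m, m, m)
    rw [h11] at h6
    obtain ⟨k4, h12⟩ := kc_some k0 k2 h6
    rw [ml_mm σ k0 k2 k4 e0 e2 s0 h12, ml_y_m, if_pos h10, if_pos rfl]
    change (if sh k3 then e0 else 0) + (if sh k1 then e2 else 0) =
      (if sh k1 then e0 + e2 else 0) + (if sh k2 then e0 else 0)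
    obtain ⟨-, -, -, h13, h14⟩ := kc_spec k2 k1 k3 h9
    rw [h13]
    rcases h14 with h14 | h14 <;> rw [h14]
    · cases sh k1 <;> simp
    · cases sh k2 <;> simp

end Pool.Agent.L7h78.PG
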