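import Pool.Agent.L7h78.PG.Ga0

/-!
# Project PG: part GA3
-/

set_option autoImplicit false
set_option linter.unusedSimpArgs false
set_option linter.unnecessarySeqFocus false
set_option linter.unusedTactic false

namespace Pool.Agent.L7h78.PG

open CategoryTheory Opposite Limits MonoidalCategory
open Pool.Agent.L7h34.PG

theorem s_GA3 : S_GA3 := by
  classical
  intro S σ ε m
  refine ⟨?_, ?_, ?_, ?_, ?_, ?_⟩
  · intro h h' a
    rcases a with _ | _ | ⟨(_ | ⟨l, c⟩ | _), s⟩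
    · rfl
    · rfl
    · rfl
    · change El.ix (Sh.y l (Bg.cj h (Bg.cj h' c))) s = El.ix (Sh.y l (Bg.cj (h + h') c)) s
      rw [cj_cj]
    · rfl
  · intro a
    rcases a with _ | _ | ⟨(_ | ⟨l, c⟩ | _), s⟩
    · rfl
    · rfl
    · rfl
    · change El.ix (Sh.y l (Bg.cj (fun _ => 0) c)) s = El.ix (Sh.y l c) s
      rw [cj_zero]
    · rfl
  · intro h a b c
    have hz : ml σ a b ≠ .z := by
      rcases a with _ | _ | ⟨(_ | _ | _), s⟩ <;> rcases b with _ | _ | ⟨(_ | _ | _), s'⟩ <;>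
        simp only [ml_zero_l, ml_zero_r, ml_z_r, ml_y_r, ml_z_u, ml_z_m, ml_ix_u, ml_u_m, ml_y_m,
          ml_m_m] <;> (try split_ifs) <;> (try split) <;> (try split_ifs) <;> simp
    generalize ml σ a b = w at hz
    rcases w with _ | _ | ⟨(l | ⟨l, q⟩ | ⟨k, e⟩), s⟩
    · simp only [gy, ml_zero_l]
    · exact absurd rfl hz
    · rcases c with _ | _ | ⟨(_ | _ | _), s'⟩ <;>
        simp only [gy, ml_zero_l, ml_zero_r, ml_z_r, ml_y_r, ml_z_u, ml_z_m, ml_ix_u, ml_u_m,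
          ml_y_m, ml_m_m] <;> (try split_ifs) <;> rfl
    · rcases c with _ | _ | ⟨(_ | _ | _), s'⟩ <;>
        simp only [gy, ml_zero_l, ml_zero_r, ml_z_r, ml_y_r, ml_z_u, ml_z_m, ml_ix_u, ml_u_m,
          ml_y_m, ml_m_m, P_cj] <;> (try split_ifs) <;> rfl
    · rcases c with _ | _ | ⟨(_ | _ | ⟨k', e'⟩), s'⟩ <;>
        simp only [gy, ml_zero_l, ml_zero_r, ml_z_r, ml_y_r, ml_z_u, ml_z_m, ml_ix_u, ml_u_m,
          ml_y_m, ml_m_m, P_cj]
      cases kc k k' with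
      | none => rfl
      | some k'' =>
        simp only
        split_ifs <;> rfl
  · intro h a b
    rcases b with _ | _ | ⟨(_ | _ | _), s'⟩ <;> simp only [gy, ml_y_r]
  · intro m' f h a
    rcases a with _ | _ | ⟨(_ | ⟨l, c⟩ | _), s⟩ <;> rfl
  · intro m' f a b c
    rcases a with _ | _ | ⟨(_ | _ | _), s⟩ <;> rcases b with _ | _ | ⟨(_ | _ | _), s'⟩ <;>
      rcases c with _ | _ | ⟨(_ | _ | _), s''⟩ <;> rfl

end Pool.Agent.L7h78.PG
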