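import Pool.Agent.L7h34.PG.Stm

/-!
# Project PG: rules for the product

The values of `ml σ a b` on the constructors.
-/

set_option autoImplicit false

namespace Pool.Agent.L7h78.PG

open CategoryTheory Opposite Limits MonoidalCategory
open Pool.Agent.L7h34.PG

variable {S : Type} (σ : Equiv.Perm S) {m : SimplexCategoryᵒᵖ}

theorem ml_zero_l (b : El (Bg m) S) : ml σ .zero b = .zero := by
  rcases b with _ | _ | ⟨(_ | _ | _), s⟩ <;> rfl

theorem ml_zero_r (a : El (Bg m) S) : ml σ a .zero = .zero := by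
  rcases a with _ | _ | ⟨(_ | _ | _), s⟩ <;> rfl

theorem ml_z_r (a : El (Bg m) S) : ml σ a .z = .zero := by
  rcases a with _ | _ | ⟨(_ | _ | _), s⟩ <;> rfl

theorem ml_y_r (a : El (Bg m) S) (l : Bool) (c : Bg m) (s : S) :
    ml σ a (.ix (.y l c) s) = .zero := by
  rcases a with _ | _ | ⟨(_ | _ | _), s⟩ <;> rfl

theorem ml_z_u (l : Bool) (s : S) :
    ml σ (.z : El (Bg m) S) (.ix (.u l) s) = .ix (.y l (Bg.one m)) s := rfl

theorem ml_z_m (k : Kd) (e : ZMod 2) (s : S) :
    ml σ (.z : El (Bg m) S) (.ix (.m k e) s) = .zero := rfl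

theorem ml_ix_u (a : Sh (Bg m)) (s' : S) (l : Bool) (s : S) :
    ml σ (.ix a s' : El (Bg m) S) (.ix (.u l) s) = .zero := by
  rcases a with _ | _ | _ <;> rfl

theorem ml_u_m (l : Bool) (s : S) (k : Kd) (e : ZMod 2) (s' : S) [Decidable (s' = s)] :
    ml σ (.ix (.u l) s : El (Bg m) S) (.ix (.m k e) s') =
      if src k = l then if s' = s then .ix (.u (tgt k)) (sft σ (sh k) s) else .zero
      else .zero := by
  by_cases h1 : src k = l
  · by_cases h2 : s' = s
    · simp [ml, mul, tbl, h1, h2, sft]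
    · simp [ml, mul, tbl, h1, h2, sft]
  · simp [ml, mul, tbl, h1]

theorem ml_y_m (l : Bool) (c : Bg m) (s : S) (k : Kd) (e : ZMod 2) (s' : S)
    [Decidable (s' = s)] :
    ml σ (.ix (.y l c) s : El (Bg m) S) (.ix (.m k e) s') =
      if src k = l then if s' = s then .ix (.y (tgt k) (Bg.P m k e c)) (sft σ (sh k) s)
      else .zero else .zero := by
  by_cases h1 : src k = l
  · by_cases h2 : s' = s
    · simp [ml, mul, tbl, h1, h2, sft]
    · simp [ml, mul, tbl, h1, h2, sft]
  · simp [ml, mul, tbl, h1]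

theorem ml_m_m (k : Kd) (e : ZMod 2) (s : S) (k' : Kd) (e' : ZMod 2) (s' : S)
    [Decidable (s' = sft σ (sh k) s)] :
    ml σ (.ix (.m k e) s : El (Bg m) S) (.ix (.m k' e') s') =
      match kc k k' with
      | some k'' => if s' = sft σ (sh k) s then .ix (.m k'' (e + e')) s else .zero
      | none => .zero := by
  cases h1 : kc k k' with
  | none => simp [ml, mul, tbl, h1]
  | some k'' =>
    by_cases h2 : s' = sft σ (sh k) s
    · simp [ml, mul, tbl, h1, h2, sft]
    · simp [ml, mul, tbl, h1, h2]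

theorem P_one (k : Kd) (e : ZMod 2) : Bg.P m k e (Bg.one m) = Bg.one m := by
  apply Subtype.ext
  funext i j
  change pg k e 1 = 1
  unfold pg pa
  cases sh k <;> by_cases he : e = 0 <;> simp [he, pb, one_def]

theorem cj_one (h : ZMod 2) : Bg.cj (fun _ => h) (Bg.one m) = Bg.one m := by
  apply Subtype.ext
  funext i j
  change tp h * 1 * tp h = 1
  rw [mul_one, tp_sq]

theorem cj_zero (c : Bg m) : Bg.cj (fun _ => 0) c = c := by
  apply Subtype.ext
  funext i j
  change tp 0 * c.1 i j * tp 0 = c.1 i j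
  simp [tp]

theorem tp_add (e f : ZMod 2) : tp e * tp f = tp (e + f) := by
  revert e f
  decide

theorem tp_add' (e f : ZMod 2) : tp e * tp f = tp (f + e) := by
  rw [tp_add, add_comm]

theorem cj_cj (h h' : Fin (m.unop.len + 1) → ZMod 2) (c : Bg m) :
    Bg.cj h (Bg.cj h' c) = Bg.cj (h + h') c := by
  apply Subtype.ext
  funext i j
  change tp (h i) * (tp (h' i) * c.1 i j * tp (h' j)) * tp (h j) =
    tp (h i + h' i) * c.1 i j * tp (h j + h' j)
  rw [← tp_add, ← tp_add' (h' j) (h j)]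
  simp only [mul_assoc]

theorem pg_tp (k : Kd) (e h : ZMod 2) : pg k e (tp h) = tp h := by
  unfold pg pa tp
  cases sh k <;> by_cases he : e = 0 <;> by_cases hh : h = 0 <;>
    simp [he, hh, pb, one_def, tau]

theorem P_cj (k : Kd) (e : ZMod 2) (h : Fin (m.unop.len + 1) → ZMod 2) (c : Bg m) :
    Bg.P m k e (Bg.cj h c) = Bg.cj h (Bg.P m k e c) := by
  apply Subtype.ext
  funext i j
  change pg k e (tp (h i) * c.1 i j * tp (h j)) = tp (h i) * pg k e (c.1 i j) * tp (h j)
  rw [pg_mul, pg_mul, pg_tp, pg_tp]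

end Pool.Agent.L7h78.PG
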